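import Mathlib

set_option autoImplicit false
open Filter Topology Finset
open scoped ENNReal

namespace Pool.Agent.H.MP_3f33d0_an

abbrev Y : Type := lp (fun _ : ℤ => lp (fun _ : ℕ => ℂ) 1) ∞

def a (n : ℕ) : ℤ := 2 ^ n

lemma a_inj : Function.Injective a := fun _ _ h =>
  (pow_right_injective₀ (by norm_num) (by norm_num) : Function.Injective ((2 : ℤ) ^ ·)) h

lemma sidon {i l k j : ℕ} (h : a i + a l = a k + a j) : (i = k ∧ l = j) ∨ (i = j ∧ l = k) := by
  have key : ∀ x y z w : ℕ, a x + a y = a z + a w → ¬ (x < z ∧ y < z) := by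
    rintro x y z w h ⟨h1, h2⟩
    obtain ⟨z, rfl⟩ : ∃ v, z = v + 1 := ⟨z - 1, by omega⟩
    have h3 : a x ≤ a z := pow_le_pow_right₀ (by norm_num) (by omega)
    have h4 : a y ≤ a z := pow_le_pow_right₀ (by norm_num) (by omega)
    have h5 : 0 < a w := by unfold a; positivity
    have h6 : a (z + 1) = 2 * a z := by unfold a; ring
    omega
  have h1 := key i l k j h
  have h2 := key i l j k (by omega)
  have h3 := key k j i l h.symm
  have h4 := key k j l i (by omega)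
  have h5 : i = k → l = j := by rintro rfl; exact a_inj (by omega)
  have h6 : i = j → l = k := by rintro rfl; exact a_inj (by omega)
  have h7 : l = k → i = j := by rintro rfl; exact a_inj (by omega)
  have h8 : l = j → i = k := by rintro rfl; exact a_inj (by omega)
  omega

def Bd (g : ℤ → ℂ) (C : ℝ) : Prop := ∀ (h : ℤ) (s : Finset ℕ), ∑ n ∈ s, ‖g (a n + h)‖ ≤ C

lemma nle {F : Y} {C : ℝ} (h : ∀ (h : ℤ) (s : Finset ℕ), ∑ n ∈ s, ‖F h n‖ ≤ C) : ‖F‖ ≤ C := by
  have h0 : 0 ≤ C := by simpa using h 0 ∅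
  exact lp.norm_le_of_forall_le h0 fun i =>
    lp.norm_le_of_forall_sum_le (by simp) h0 (by simpa using h i)

lemma sle (F : Y) (h : ℤ) (s : Finset ℕ) : ∑ n ∈ s, ‖F h n‖ ≤ ‖F‖ :=
  le_trans (by simpa using lp.sum_rpow_le_norm_rpow (by simp) (F h) s)
    (lp.norm_apply_le_norm (by simp) F h)

def W {g : ℤ → ℂ} {C : ℝ} (hg : Bd g C) : Y :=
  ⟨fun h => ⟨fun n => g (a n + h), memℓp_gen' (C := C) (by simpa using hg h)⟩,
    memℓp_infty ⟨C, by
      rintro _ ⟨h, rfl⟩
      exact lp.norm_le_of_forall_sum_le (by simp) (by simpa using hg 0 ∅) (by simpa using hg h)⟩⟩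

lemma W_ap {g : ℤ → ℂ} {C : ℝ} (hg : Bd g C) (h : ℤ) (n : ℕ) : W hg h n = g (a n + h) := rfl

lemma bd_single (m : ℤ) : Bd (Pi.single m 1) 1 := by
  intro h s
  have : ∀ n, ‖(Pi.single m 1 : ℤ → ℂ) (a n + h)‖ = if a n + h = m then 1 else 0 := by
    intro n; rw [Pi.single_apply]; split_ifs <;> simp
  simp only [this, sum_boole, Nat.cast_le_one]
  exact card_le_one.2 fun x hx y hy => a_inj (by
    have := (mem_filter.1 hx).2; have := (mem_filter.1 hy).2; omega)

def D (m : ℤ) : Y := W (bd_single m)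

noncomputable def ev2 (h : ℤ) (n : ℕ) : Y →L[ℂ] ℂ :=
  (lp.evalCLM ℂ (fun _ : ℕ => ℂ) 1 n).comp (lp.evalCLM ℂ (fun _ : ℤ => lp (fun _ : ℕ => ℂ) 1) ∞ h)

lemma ev2_ap (h : ℤ) (n : ℕ) (F : Y) : ev2 h n F = F h n := rfl

noncomputable def K : Submodule ℂ Y := (Submodule.span ℂ (Set.range D)).topologicalClosure

lemma K_closed : IsClosed (K : Set Y) := Submodule.isClosed_topologicalClosure _

abbrev E : Type := ↥K

lemma E_complete : CompleteSpace E := K_closed.completeSpace_coe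

lemma K_le {M : Submodule ℂ Y} (hM : IsClosed (M : Set Y)) (h : ∀ m, D m ∈ M) : K ≤ M :=
  Submodule.topologicalClosure_minimal _ (Submodule.span_le.2 (by rintro _ ⟨m, rfl⟩; exact h m)) hM

noncomputable def ev (s : ℤ) : E →L[ℂ] ℂ := (ev2 (s - 1) 0).comp K.subtypeL

lemma cons (f : E) (h : ℤ) (n : ℕ) : f.1 h n = ev (a n + h) f := by
  have := K_le (M := (ev2 h n - ev2 (a n + h - 1) 0).ker) (ContinuousLinearMap.isClosed_ker _)
    (fun m => by simp [ev2_ap, D, W_ap, a]) f.2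
  exact sub_eq_zero.1 this

lemma ev_bd (f : E) : Bd (fun s => ev s f) ‖f‖ := fun h s => by
  have := sle f.1 h s
  simp only [cons] at this
  exact this

lemma norm_le {f : E} {C : ℝ} (h : Bd (fun s => ev s f) C) : ‖f‖ ≤ C :=
  nle (F := f.1) fun k s => by simpa only [cons] using h k s

lemma ev_le (f : E) (s : ℤ) : ‖ev s f‖ ≤ ‖f‖ := by
  simpa [a] using ev_bd f (s - 1) {0}

lemma ev_ext {f g : E} (h : ∀ s, ev s f = ev s g) : f = g := by
  rw [← sub_eq_zero, ← norm_le_zero_iff]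
  exact norm_le fun k s => by simp [h]

def d (m : ℤ) : E := ⟨D m, Submodule.le_topologicalClosure _ (Submodule.subset_span ⟨m, rfl⟩)⟩

lemma ev_d (s m : ℤ) : ev s (d m) = if s = m then 1 else 0 := by
  rw [← Pi.single_apply]
  change (Pi.single m 1 : ℤ → ℂ) (a 0 + (s - 1)) = _
  simp [a]

lemma dense_d : Dense (Submodule.span ℂ (Set.range d) : Set E) := by
  rw [Subtype.dense_iff]
  have : K.subtype '' (Submodule.span ℂ (Set.range d) : Set E) = Submodule.span ℂ (Set.range D) := by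
    rw [← Submodule.map_coe, Submodule.map_span, ← Set.range_comp]; rfl
  exact fun x hx => by
    change x ∈ closure (K.subtype '' _)
    rw [this]; exact hx

lemma ext_d {A B : E →L[ℂ] E} (h : ∀ m s, ev s (A (d m)) = ev s (B (d m))) : A = B :=
  ContinuousLinearMap.ext_on dense_d (by rintro _ ⟨m, rfl⟩; exact ev_ext (h m))

lemma approx (f : E) {ε : ℝ} (hε : 0 < ε) :
    ∃ φ : E, ∃ S : Finset ℤ, ‖f - φ‖ < ε ∧ ∀ s ∉ S, ev s φ = 0 := by
  obtain ⟨φ, hφ, h⟩ := dense_d.exists_dist_lt f hε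
  suffices ∃ S : Finset ℤ, ∀ s ∉ S, ev s φ = 0 from
    let ⟨S, hS⟩ := this; ⟨φ, S, by rwa [← dist_eq_norm], hS⟩
  clear h
  induction hφ using Submodule.span_induction with
  | mem x hx => obtain ⟨m, rfl⟩ := hx; exact ⟨{m}, fun s hs => by simpa [ev_d] using hs⟩
  | zero => exact ⟨∅, by simp⟩
  | add x y _ _ hx hy =>
    obtain ⟨S, hS⟩ := hx; obtain ⟨T, hT⟩ := hy
    exact ⟨S ∪ T, fun s hs => by simp at hs; simp [hS s hs.1, hT s hs.2]⟩
  | smul c x _ hx => obtain ⟨S, hS⟩ := hx; exact ⟨S, fun s hs => by simp [hS s hs]⟩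

lemma ev_zero (f : E) : Tendsto (fun s => ev s f) cofinite (𝓝 0) := by
  refine Metric.tendsto_nhds.2 fun ε hε => ?_
  obtain ⟨φ, S, h1, h2⟩ := approx f hε
  refine S.eventually_cofinite_notMem.mono fun s hs => ?_
  have := ev_le (f - φ) s
  rw [map_sub, h2 s hs, sub_zero] at this
  rw [dist_zero_right]; linarith

lemma solid (f : E) (g : ℤ → ℂ) (h : ∀ s, ‖g s‖ ≤ ‖ev s f‖) :
    ∃ f' : E, (∀ s, ev s f' = g s) ∧ ‖f'‖ ≤ ‖f‖ := by
  have hg : Bd g ‖f‖ := fun k s => (sum_le_sum fun n _ => h _).trans (ev_bd f k s)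
  have hm : W hg ∈ K := by
    refine K_closed.closure_subset (Metric.mem_closure_iff.2 fun ε hε => ?_)
    obtain ⟨φ, S, h1, h2⟩ := approx f hε
    refine ⟨_, (∑ m ∈ S, g m • d m : E).2, ?_⟩
    rw [dist_eq_norm]
    refine lt_of_le_of_lt (nle fun k s => le_trans (sum_le_sum fun n _ => ?_)
      (ev_bd (f - φ) k s)) h1
    rw [lp.coeFn_sub, Pi.sub_apply, lp.coeFn_sub, Pi.sub_apply, W_ap, cons]
    simp only [map_sum, map_smul, ev_d, smul_eq_mul, mul_ite, mul_one, mul_zero, sum_ite_eq,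
      map_sub]
    split_ifs with h3
    · simp
    · simpa [h2 _ h3] using h _
  have he : ∀ s, ev s (⟨W hg, hm⟩ : E) = g s := fun s => by
    change g (a 0 + (s - 1)) = _
    simp [a]
  exact ⟨⟨W hg, hm⟩, he, norm_le (by simpa only [he] using hg)⟩

noncomputable def rY (t : ℤ) : Y →L[ℂ] Y :=
  LinearMap.mkContinuous
    { toFun := fun F => ⟨fun h => F (h + t), memℓp_infty ⟨‖F‖, by
        rintro _ ⟨h, rfl⟩; exact lp.norm_apply_le_norm (by simp) F _⟩⟩
      map_add' := fun _ _ => rfl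
      map_smul' := fun _ _ => rfl } 1
    (fun F => by
      rw [one_mul]
      exact lp.norm_le_of_forall_le (norm_nonneg _) fun h => lp.norm_apply_le_norm (by simp) F _)

lemma rY_mem (t : ℤ) (f : E) : rY t f.1 ∈ K := by
  refine K_le (M := K.comap (rY t : Y →ₗ[ℂ] Y)) (K_closed.preimage (rY t).continuous)
    (fun m => ?_) f.2
  have : rY t (D m) = D (m - t) := by
    ext h n
    change (Pi.single m 1 : ℤ → ℂ) (a n + (h + t)) = (Pi.single (m - t) 1 : ℤ → ℂ) (a n + h)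
    simp only [Pi.single_apply]
    congr 1
    exact propext ⟨fun _ => by omega, fun _ => by omega⟩
  change rY t (D m) ∈ K
  rw [this]; exact (d _).2

noncomputable def ρ (t : ℤ) : E →L[ℂ] E := ((rY t).comp K.subtypeL).codRestrict K (rY_mem t)

lemma ev_ρ (t s : ℤ) (f : E) : ev s (ρ t f) = ev (s + t) f := by
  change f.1 (s - 1 + t) 0 = f.1 (s + t - 1) 0
  rw [sub_add_eq_add_sub]

lemma ρ_le (t : ℤ) : ‖ρ t‖ ≤ 1 :=
  ContinuousLinearMap.opNorm_le_bound _ zero_le_one fun f => by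
    rw [one_mul]
    exact norm_le fun k s => by simpa only [ev_ρ, add_assoc] using ev_bd f (k + t) s

lemma comb {Q : Type} (q : Finset Q) (b : Q → ℤ) (c : Q → ℂ) (hc : ∀ x, ‖c x‖ ≤ 1) (C : ℕ)
    (h : ∀ (k : ℤ) (r : Finset Q), r ⊆ q → (∀ x ∈ r, ∃ n, a n + k = b x) → r.card ≤ C) :
    ‖∑ x ∈ q, c x • d (b x)‖ ≤ C := by
  classical
  refine norm_le fun k s => ?_
  calc _ ≤ ∑ n ∈ s, ∑ x ∈ q, ‖ev (a n + k) (d (b x))‖ := by
        refine sum_le_sum fun n _ => ?_
        simp only [map_sum, map_smul]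
        refine (norm_sum_le _ _).trans (sum_le_sum fun x _ => ?_)
        rw [norm_smul]
        exact mul_le_of_le_one_left (norm_nonneg _) (hc x)
    _ ≤ ∑ x ∈ q, if ∃ n, a n + k = b x then (1 : ℝ) else 0 := by
        rw [sum_comm]
        refine sum_le_sum fun x _ => ?_
        split_ifs with h1
        · simpa only [ev_d, ← Pi.single_apply] using bd_single (b x) k s
        · push Not at h1
          simp [ev_d, h1]
    _ ≤ _ := by
        rw [sum_boole]
        exact_mod_cast h k _ (filter_subset _ _) fun x hx => (mem_filter.1 hx).2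

end Pool.Agent.H.MP_3f33d0_an
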