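import Pool.Agent.H.MP_3f33d0_an.A

set_option autoImplicit false
open Filter Topology Finset
open scoped ENNReal ComplexOrder

namespace Pool.Agent.H.MP_3f33d0_an

structure Ok {V : Type} [NormedAddCommGroup V] [NormedSpace ℂ V] (ev : ℤ → V →L[ℂ] ℂ) (d : ℤ → V)
    (ρ : ℤ → V →L[ℂ] V) : Prop where
  ev_bd : ∀ f, Bd (fun s => ev s f) ‖f‖
  norm_le : ∀ {f C}, Bd (fun s => ev s f) C → ‖f‖ ≤ C
  ev_ext : ∀ {f g}, (∀ s, ev s f = ev s g) → f = g
  ev_d : ∀ s m, ev s (d m) = if s = m then 1 else 0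
  ext_d : ∀ {A B : V →L[ℂ] V}, (∀ m s, ev s (A (d m)) = ev s (B (d m))) → A = B
  ev_zero : ∀ f, Tendsto (fun s => ev s f) cofinite (𝓝 0)
  ev_ρ : ∀ t s f, ev s (ρ t f) = ev (s + t) f
  comb : ∀ {Q : Type} (q : Finset Q) (b : Q → ℤ) (c : Q → ℂ) (_ : ∀ x, ‖c x‖ ≤ 1) (C : ℕ)
    (_ : ∀ (k : ℤ) (r : Finset Q), r ⊆ q → (∀ x ∈ r, ∃ n, a n + k = b x) → r.card ≤ C),
    ‖∑ x ∈ q, c x • d (b x)‖ ≤ C

lemma ok : Ok ev d ρ := ⟨ev_bd, norm_le, ev_ext, ev_d, ext_d, ev_zero, ev_ρ, comb⟩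

namespace Ok

variable {E : Type} [NormedAddCommGroup E] [NormedSpace ℂ E] {ev : ℤ → E →L[ℂ] ℂ} {d : ℤ → E}
    {ρ : ℤ → E →L[ℂ] E} (H : Ok ev d ρ)
include H

lemma ρ_le (t : ℤ) : ‖ρ t‖ ≤ 1 :=
  ContinuousLinearMap.opNorm_le_bound _ zero_le_one fun f => by
    rw [one_mul]
    exact H.norm_le fun k s => by simpa only [H.ev_ρ, add_assoc] using H.ev_bd f (k + t) s

lemma ev_le (f : E) (s : ℤ) : ‖ev s f‖ ≤ ‖f‖ := by
  simpa [a] using H.ev_bd f (s - 1) {0}

lemma ker {T : E →L[ℂ] E} (hT : ∀ t f, T (ρ t f) = ρ t (T f)) (s m : ℤ) :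
    ev s (T (d m)) = ev (s - m) (T (d 0)) := by
  have : d m = ρ (-m) (d 0) := H.ev_ext fun s => by
    simp only [H.ev_ρ, H.ev_d]
    congr 1
    exact propext ⟨fun _ => by omega, fun _ => by omega⟩
  rw [this, hT, H.ev_ρ, sub_eq_add_neg]

lemma l1 {T : E →L[ℂ] E} (hT : ∀ t f, T (ρ t f) = ρ t (T f)) :
    Summable fun s => ‖ev s (T (d 0))‖ := by
  classical
  refine summable_of_sum_le (c := 2 * ‖T‖) (fun _ => norm_nonneg _) fun F => ?_
  set κ : ℤ → ℂ := fun s => ev s (T (d 0)) with hκ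
  choose σ hσ1 hσ using fun g => Complex.exists_norm_eq_mul_self (κ g)
  set N := F.card with hN
  rcases Nat.eq_zero_or_pos N with h0 | h0
  · rw [card_eq_zero.1 h0, sum_empty]; positivity
  have hb : ∀ M : ℕ, ‖∑ i ∈ range N, ∑ x ∈ F ×ˢ range N,
      σ x.1 * κ (a (M + i) - a (M + x.2) + x.1)‖ ≤ ‖T‖ * (N + N : ℕ) := by
    intro M
    have h1 := H.comb (F ×ˢ range N) (fun x => a (M + x.2) - x.1) (fun x => σ x.1)
      (fun x => (hσ1 _).le) (N + N) (fun k r hr h => by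
        rw [← card_filter_add_card_filter_not (fun x => x.1 = -k)]
        refine add_le_add ?_ ?_
        · rw [← card_range N]
          refine card_le_card_of_injOn Prod.snd (fun x hx => ?_) fun x hx y hy hxy => ?_
          · exact (mem_product.1 (hr (mem_filter.1 hx).1)).2
          · exact Prod.ext ((mem_filter.1 hx).2.trans (mem_filter.1 hy).2.symm) hxy
        · refine card_le_card_of_injOn Prod.fst (fun x hx => ?_) fun x hx y hy hxy => ?_
          · exact (mem_product.1 (hr (mem_filter.1 hx).1)).1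
          · obtain ⟨n, hn⟩ := h x (mem_filter.1 hx).1
            obtain ⟨m, hm⟩ := h y (mem_filter.1 hy).1
            have h2 := (mem_filter.1 hx).2
            refine Prod.ext hxy ?_
            rcases sidon (i := n) (l := M + y.2) (k := m) (j := M + x.2) (by omega) with h3 | h3
            · omega
            · rw [h3.1] at hn; omega)
    refine le_trans ?_ ((T.le_opNorm _).trans (mul_le_mul_of_nonneg_left h1 (norm_nonneg _)))
    refine le_trans ((norm_sum_le _ _).trans (le_of_eq ?_))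
      (H.ev_bd _ 0 ((range N).map (addLeftEmbedding M)))
    rw [sum_map]
    refine sum_congr rfl fun i _ => ?_
    simp only [addLeftEmbedding_apply, add_zero, map_sum, map_smul, smul_eq_mul]
    congr 1
    refine sum_congr rfl fun x _ => ?_
    rw [H.ker hT, hκ, show a (M + i) - (a (M + x.2) - x.1) = a (M + i) - a (M + x.2) + x.1 by ring]
  have hl : Tendsto (fun M : ℕ => ∑ i ∈ range N, ∑ x ∈ F ×ˢ range N,
      σ x.1 * κ (a (M + i) - a (M + x.2) + x.1)) atTop
      (𝓝 (∑ i ∈ range N, ∑ x ∈ F ×ˢ range N, if x.2 = i then (‖κ x.1‖ : ℂ) else 0)) := by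
    refine tendsto_finsetSum _ fun i _ => tendsto_finsetSum _ fun x _ => ?_
    split_ifs with h
    · simp [h, hσ]
    · have hi : Function.Injective fun M : ℕ => a (M + i) - a (M + x.2) + x.1 := by
        intro M M' hM
        simp only at hM
        rcases sidon (i := M + i) (l := M' + x.2) (k := M' + i) (j := M + x.2) (by omega) with
          h3 | h3 <;> omega
      have := ((H.ev_zero (T (d 0))).comp hi.tendsto_cofinite).const_mul (σ x.1)
      rw [Nat.cofinite_eq_atTop, mul_zero] at this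
      exact this
  have h2 := le_of_tendsto' hl.norm hb
  have h3 : (∑ i ∈ range N, ∑ x ∈ F ×ˢ range N, if x.2 = i then (‖κ x.1‖ : ℂ) else 0) =
      ((N * ∑ g ∈ F, ‖κ g‖ : ℝ) : ℂ) := by
    rw [sum_congr rfl (g := fun _ => ∑ g ∈ F, (‖κ g‖ : ℂ)) fun i hi => by
      simp [sum_product, hi]]
    simp
  rw [h3, Complex.norm_real, Real.norm_of_nonneg (by positivity)] at h2
  have h4 : (0 : ℝ) < N := by exact_mod_cast h0
  push_cast at h2
  nlinarith

omit H in
def Ps (ev : ℤ → E →L[ℂ] ℂ) (S : E →ₗ[ℂ] E) : Prop :=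
  ∀ f, (∀ s, 0 ≤ ev s f) → ∀ s, 0 ≤ ev s (S f)

lemma conv [CompleteSpace E] (κ : ℤ → ℝ) (h0 : ∀ s, 0 ≤ κ s) (h : Summable κ) :
    ∃ S : E →L[ℂ] E, Ps ev S ∧ ∀ m s, ev s (S (d m)) = κ (s - m) := by
  have h1 : Summable fun m => (κ m : ℂ) • ρ (-m) := .of_norm_bounded h fun m => by
    rw [norm_smul, Complex.norm_real, Real.norm_of_nonneg (h0 m)]
    exact mul_le_of_le_one_right (h0 m) (H.ρ_le _)
  have h2 : ∀ f s, HasSum (fun m => (κ m : ℂ) * ev (s + -m) f)
      (ev s ((∑' m, (κ m : ℂ) • ρ (-m)) f)) := fun f s => by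
    simpa [H.ev_ρ] using ((ev s).comp (ContinuousLinearMap.apply ℂ E f)).hasSum h1.hasSum
  refine ⟨∑' m, (κ m : ℂ) • ρ (-m), fun f hf s => ?_, fun m s => ?_⟩
  · exact (h2 f s).nonneg fun m => mul_nonneg (by exact_mod_cast h0 m) (hf _)
  · refine (h2 _ s).unique ?_
    convert hasSum_single (f := fun j => (κ j : ℂ) * ev (s + -j) (d m)) (s - m) fun j hj => ?_
    · simp [H.ev_d]
    · rw [H.ev_d, if_neg (by omega), mul_zero]

lemma reg [CompleteSpace E] {T : E →L[ℂ] E} (hT : ∀ t f, T (ρ t f) = ρ t (T f)) :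
    (T : E →ₗ[ℂ] E) ∈ Submodule.span ℂ {S | Ps ev S} := by
  have h := H.l1 hT
  set κ : ℤ → ℂ := fun s => ev s (T (d 0)) with hκ
  have hr : ∀ s, |(κ s).re| ≤ ‖κ s‖ := fun s => Complex.abs_re_le_norm _
  have hi : ∀ s, |(κ s).im| ≤ ‖κ s‖ := fun s => Complex.abs_im_le_norm _
  obtain ⟨S0, p0, e0⟩ := H.conv (fun s => ‖κ s‖) (fun _ => norm_nonneg _) h
  obtain ⟨S1, p1, e1⟩ := H.conv (fun s => ‖κ s‖ + (κ s).re)
    (fun s => by linarith [neg_abs_le (κ s).re, hr s])
    (h.add (.of_norm_bounded h hr))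
  obtain ⟨S2, p2, e2⟩ := H.conv (fun s => ‖κ s‖ + (κ s).im)
    (fun s => by linarith [neg_abs_le (κ s).im, hi s])
    (h.add (.of_norm_bounded h hi))
  have : T = S1 + Complex.I • S2 - (1 + Complex.I) • S0 := H.ext_d fun m s => by
    simp only [sub_apply, add_apply, smul_apply, map_sub, map_add, map_smul, e0, e1, e2, smul_eq_mul]
    rw [H.ker hT]
    push_cast
    linear_combination (Complex.re_add_im (κ (s - m))).symm
  rw [this]
  exact Submodule.sub_mem _ (Submodule.add_mem _ (Submodule.subset_span p1)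
    (Submodule.smul_mem _ _ (Submodule.subset_span p2)))
    (Submodule.smul_mem _ _ (Submodule.subset_span p0))

omit H in
lemma dom {T : E →ₗ[ℂ] E} (hT : T ∈ Submodule.span ℂ {S | Ps ev S}) :
    ∃ R : E →ₗ[ℂ] E, Ps ev R ∧ ∀ f, (∀ s, 0 ≤ ev s f) → ∀ s, ‖ev s (T f)‖ ≤ (ev s (R f)).re := by
  induction hT using Submodule.span_induction with
  | mem S hS => exact ⟨S, hS, fun f hf s => (Complex.re_eq_norm.2 (hS f hf s)).ge⟩
  | zero => exact ⟨0, fun f _ s => by simp, fun f _ s => by simp⟩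
  | add S T _ _ hS hT =>
    obtain ⟨R, p, h⟩ := hS
    obtain ⟨R', p', h'⟩ := hT
    refine ⟨R + R', fun f hf s => by simpa using add_nonneg (p f hf s) (p' f hf s),
      fun f hf s => ?_⟩
    simpa using (norm_add_le _ _).trans (add_le_add (h f hf s) (h' f hf s))
  | smul c S _ hS =>
    obtain ⟨R, p, h⟩ := hS
    refine ⟨(‖c‖ : ℂ) • R, fun f hf s => by
      simpa using mul_nonneg (by exact_mod_cast norm_nonneg c) (p f hf s), fun f hf s => ?_⟩
    simpa using mul_le_mul_of_nonneg_left (h f hf s) (norm_nonneg c)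

omit H in
noncomputable def sg (S : Finset ℕ) (j : ℕ) : ℂ := if j ∈ S then -1 else 1

omit H in
lemma rad (x : ℕ → ℂ) (N : ℕ) : ∑ S ∈ (range N).powerset, ‖∑ j ∈ range N, sg S j * x j‖ ^ 2 =
    2 ^ N * ∑ j ∈ range N, ‖x j‖ ^ 2 := by
  induction N with
  | zero => simp
  | succ N ih =>
    rw [range_add_one, sum_powerset_insert notMem_range_self, ← sum_add_distrib,
      sum_insert notMem_range_self, sum_congr rfl (g := fun S =>
        2 * (‖∑ j ∈ range N, sg S j * x j‖ ^ 2 + ‖x N‖ ^ 2)) fun S hS => ?_]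
    · rw [← mul_sum, sum_add_distrib, ih]
      simp; ring
    have h1 : N ∉ S := fun h => notMem_range_self (mem_powerset.1 hS h)
    rw [← parallelogram_law_with_norm ℂ, sum_insert notMem_range_self, sum_insert notMem_range_self,
      sum_congr rfl (f := fun j => sg (insert N S) j * x j) (g := fun j => sg S j * x j)
        fun j hj => by simp [sg, (mem_range.1 hj).ne]]
    simp [sg, h1, add_comm, sub_eq_add_neg]

omit H in
def pos (k : ℕ) (S : Finset ℕ) : ℕ := Encodable.encode (k, S)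

omit H in
lemma pos_inj {k l : ℕ} {S U : Finset ℕ} (h : a (pos k S) = a (pos l U)) : k = l ∧ S = U := by
  simpa using Encodable.encode_injective (a_inj h)

omit H in
noncomputable def A (ev : ℤ → E →L[ℂ] ℂ) (d : ℤ → E) (k : ℕ) : E →L[ℂ] E :=
  ∑ S ∈ (range (16 ^ k)).powerset, (((8 ^ k * 2 ^ 16 ^ k : ℝ)⁻¹ : ℝ) : ℂ) •
    (∑ j ∈ range (16 ^ k), sg S j • ev (-a j)).smulRight (d (a (pos k S)))

lemma A_le (k : ℕ) : ‖A ev d k‖ ≤ (1 / 2) ^ k := by
  refine ContinuousLinearMap.opNorm_le_bound _ (by positivity) fun f => ?_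
  have hd : ∀ m, ‖d m‖ ≤ 1 := fun m =>
    H.norm_le (by simpa only [H.ev_d, ← Pi.single_apply] using bd_single m)
  have hN : ((16 ^ k : ℕ) : ℝ) = (4 ^ k) ^ 2 := by push_cast; rw [← pow_mul, mul_comm, pow_mul]; norm_num
  unfold A
  set N := 16 ^ k
  have h1 : ∑ S ∈ (range N).powerset, ‖∑ j ∈ range N, sg S j * ev (-a j) f‖ ≤
      2 ^ N * 4 ^ k * ‖f‖ := by
    refine le_of_sq_le_sq (sq_sum_le_card_mul_sum_sq.trans ?_) (by positivity)
    rw [rad, card_powerset, card_range]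
    have : ∑ j ∈ range N, ‖ev (-a j) f‖ ^ 2 ≤ N * ‖f‖ ^ 2 := by
      simpa using sum_le_card_nsmul (range N) (fun j => ‖ev (-a j) f‖ ^ 2) (‖f‖ ^ 2)
        fun j _ => pow_le_pow_left₀ (norm_nonneg _) (H.ev_le f _) 2
    rw [hN] at this
    push_cast
    calc _ ≤ (2 : ℝ) ^ N * (2 ^ N * ((4 ^ k) ^ 2 * ‖f‖ ^ 2)) := by gcongr
      _ = _ := by ring
  rw [_root_.sum_apply]
  refine (norm_sum_le _ _).trans ?_
  calc _ ≤ ∑ S ∈ (range N).powerset,
        (8 ^ k * 2 ^ N : ℝ)⁻¹ * ‖∑ j ∈ range N, sg S j * ev (-a j) f‖ := by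
        refine sum_le_sum fun S _ => ?_
        rw [smul_apply, norm_smul, Complex.norm_real, Real.norm_of_nonneg (by positivity),
          ContinuousLinearMap.smulRight_apply, norm_smul, _root_.sum_apply]
        gcongr
        exact mul_le_of_le_one_right (norm_nonneg _) (hd _)
    _ ≤ (8 ^ k * 2 ^ N : ℝ)⁻¹ * (2 ^ N * 4 ^ k * ‖f‖) := by rw [← mul_sum]; gcongr
    _ = _ := by
        rw [show (8 : ℝ) = 4 * 2 by norm_num, mul_pow, one_div, inv_pow]; field_simp

lemma A_ap (k l : ℕ) (U : Finset ℕ) (hU : U ⊆ range (16 ^ l)) (i : ℕ) (hi : i < 16 ^ l) :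
    ev (a (pos l U)) (A ev d k (d (-a i))) =
      if k = l then (((8 ^ l * 2 ^ 16 ^ l : ℝ)⁻¹ : ℝ) : ℂ) * sg U i else 0 := by
  simp only [A, _root_.sum_apply, smul_apply, ContinuousLinearMap.smulRight_apply, map_sum, map_smul,
    H.ev_d, neg_inj, a_inj.eq_iff, smul_eq_mul, mul_ite, mul_one, mul_zero, sum_ite_eq']
  by_cases h : k = l
  · subst h
    rw [sum_eq_single_of_mem U (mem_powerset.2 hU) fun S _ hS =>
      if_neg fun h => hS (pos_inj (congrArg a h)).2.symm]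
    simp [hi]
  · rw [if_neg h]
    exact sum_eq_zero fun S _ => if_neg fun h' => h (pos_inj (congrArg a h')).1.symm

lemma nonreg [CompleteSpace E] :
    ∃ T : E →L[ℂ] E, (T : E →ₗ[ℂ] E) ∉ Submodule.span ℂ {S | Ps ev S} := by
  classical
  have h1 : Summable (A ev d) := .of_norm_bounded summable_geometric_two H.A_le
  refine ⟨∑' k, A ev d k, fun hT => ?_⟩
  obtain ⟨R, hR, hd⟩ := dom hT
  have d0 : ∀ m s, 0 ≤ ev s (d m) := fun m s => by rw [H.ev_d]; split_ifs <;> simp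
  have h2 : ∀ l U, U ⊆ range (16 ^ l) → ∀ i < 16 ^ l,
      (8 ^ l * 2 ^ 16 ^ l : ℝ)⁻¹ ≤ (ev (a (pos l U)) (R (d (-a i)))).re := by
    intro l U hU i hi
    refine le_trans (le_of_eq ?_) (hd _ (d0 _) _)
    have h3 := ((ev (a (pos l U))).comp (ContinuousLinearMap.apply ℂ E (d (-a i)))).hasSum h1.hasSum
    simp only [ContinuousLinearMap.comp_apply, ContinuousLinearMap.apply_apply,
      H.A_ap _ l U hU i hi] at h3
    rw [ContinuousLinearMap.coe_coe, h3.unique (hasSum_ite_eq l _), norm_mul, Complex.norm_real,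
      Real.norm_of_nonneg (by positivity), sg]
    split_ifs <;> simp
  let f : ℕ → E := fun k => ((2 / 3 : ℝ) ^ k : ℝ) • ∑ j ∈ range (16 ^ k), (1 : ℂ) • d (-a j)
  have hf : ∀ k, ‖f k‖ ≤ 2 * (2 / 3) ^ k := by
    intro k
    have := H.comb (range (16 ^ k)) (fun j => -a j) (fun _ => 1) (by simp) 2 (fun h r _ hr => by
      rcases r.eq_empty_or_nonempty with rfl | ⟨j, hj⟩
      · simp
      obtain ⟨n, hn⟩ := hr j hj
      refine (card_le_card (t := {j, n}) fun i hi => ?_).trans card_le_two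
      obtain ⟨m, hm⟩ := hr i hi
      rcases sidon (i := m) (l := i) (k := n) (j := j) (by omega) with h | h <;> simp [h.2])
    rw [norm_smul, Real.norm_of_nonneg (by positivity), mul_comm]
    gcongr
    exact_mod_cast this
  have hs : Summable f := .of_norm_bounded
    ((summable_geometric_of_lt_one (by norm_num) (by norm_num)).mul_left 2) hf
  have f0 : ∀ k s, 0 ≤ ev s (f k) := fun k s => by
    simp only [f, one_smul, ContinuousLinearMap.map_smul_of_tower, map_sum, Complex.real_smul]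
    exact mul_nonneg (by positivity) (sum_nonneg fun j _ => d0 _ _)
  have h4 : ∀ k s, (ev s (R (f k))).re ≤ ‖ev s (R (∑' k, f k))‖ := by
    intro k s
    have h5 := hR (∑' k, f k - f k) (fun s => by
      rw [map_sub, sub_nonneg]
      exact le_hasSum ((ev s).hasSum hs.hasSum) k fun j _ => f0 j s) s
    rw [map_sub, map_sub, sub_nonneg] at h5
    exact (Complex.le_def.1 h5).1.trans (Complex.re_le_norm _)
  obtain ⟨k, hk⟩ := pow_unbounded_of_one_lt ‖R (∑' k, f k)‖ (by norm_num : (1 : ℝ) < 4 / 3)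
  refine absurd (H.ev_bd (R (∑' k, f k)) 0 ((range (16 ^ k)).powerset.image (pos k)))
    (not_le.2 (hk.trans_le ?_))
  rw [sum_image fun S _ U _ h => (pos_inj (congrArg a h)).2]
  refine le_trans (le_of_eq ?_) (card_nsmul_le_sum _ _
    ((2 / 3) ^ k * (16 ^ k * (8 ^ k * 2 ^ 16 ^ k : ℝ)⁻¹)) fun S hS => le_trans ?_ (h4 k _))
  · rw [card_powerset, card_range, nsmul_eq_mul, show (16 : ℝ) = 8 * 2 by norm_num, mul_pow,
      show (4 / 3 : ℝ) = 2 / 3 * 2 by norm_num, mul_pow]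
    push_cast
    field_simp
  · simp only [f, one_smul, add_zero, LinearMap.map_smul_of_tower,
      ContinuousLinearMap.map_smul_of_tower, map_sum, Complex.smul_re, Complex.re_sum, smul_eq_mul]
    gcongr
    simpa using card_nsmul_le_sum (range (16 ^ k)) _ _
      fun i hi => h2 k S (mem_powerset.1 hS) i (mem_range.1 hi)

end Ok

end Pool.Agent.H.MP_3f33d0_an
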